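import Pool.Agent.Helper53.UR.Goals
import Pool.Agent.Helper9.LinSpace.Compile

set_option autoImplicit false

namespace Pool.Agent.Helper62.UR

open Pool.Agent.Helper53.UR
open Pool.Agent.Helper65.LinSpace (Ctx LS)

theorem gLSB : GoalLSB := by
  intro α _ f hf
  obtain ⟨F, hF, hF'⟩ := (Pool.Agent.Helper65.LinSpace.LS.nat_iff (f := f)).1 hf
  obtain ⟨c, hc⟩ := Pool.Agent.Helper9.LinSpace.growth hF
  exact ⟨c, fun a B h => by rw [← hF']; exact hc _ B h⟩

end Pool.Agent.Helper62.UR
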